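import Pool.Agent.MP_af1bb3_co.Mg.Main

namespace Pool.Agent.Results.MP_af1bb3_co.Asymptotic

open Pool.Agent.MP_af1bb3_co

/-- `M(n,k) = (1 + o(1)) ln ln k / ln (n / (n - k))` as `k → ∞`, uniformly for `n ≥ (1 + δ) k`. -/
theorem result :
    ∀ δ ε : ℝ, 0 < δ → 0 < ε → ∃ k₀ : ℕ, ∀ k n : ℕ, k₀ ≤ k → (1 + δ) * (k : ℝ) ≤ (n : ℝ) →
      (1 - ε) * (Real.log (Real.log (k : ℝ)) / Real.log ((n : ℝ) / ((n : ℝ) - (k : ℝ))))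
          ≤ (M n k : ℝ) ∧
        (M n k : ℝ) ≤
          (1 + ε) * (Real.log (Real.log (k : ℝ)) / Real.log ((n : ℝ) / ((n : ℝ) - (k : ℝ)))) :=
  fun δ ε hδ hε => main δ ε hδ hε

end Pool.Agent.Results.MP_af1bb3_co.Asymptotic
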